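import Pool.Agent.K6.H41.CR.Main

/-!
# The crossing angular resolution of hypercubes is less than `4 π / d`

**Theorem.** Let `G` be a graph without triangles, with `n ≥ 3` vertices and `m` edges, and let
`0 < α ≤ π`. If `G` has a straight-line drawing all of whose crossing angles are at least `α`, then
`m α ≤ (2 n - 4) π`. In particular `car (Q_d) ≤ (4 - 8 / 2 ^ d) π / d < 4 π / d` for all `d ≥ 4`, and
`car (Q_d) < π / 2` for all `d ≥ 8`.

(The known bound is `car (Q_d) < 6 π / d`, which gives `car (Q_d) < π / 2` for `d ≥ 12` only; the known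
lower bound is `π / ⌈d / 3⌉`.)

Proof. Two edges whose directions (modulo `π`) are in a window of length `α` do not cross, so that the
edges with directions in a window form a plane graph without triangles, which has at most `2 n - 4`
edges. Average over all windows. The bound `2 n - 4` is proved here from the duals of straight-line
drawings in the library `H279R3` (the even edge sets are the cuts of a multigraph): the number of
even sets is at least `2 ^ (m - n + 1)`, the number of cuts is at most `2 ^ (f - 1)`, where `f` is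
the number of the non-isolated dual vertices, and each of them has degree at least `4`.
-/

set_option autoImplicit false

namespace Pool.Agent.Results.MP_e830f9_co.HypercubeUpperBound

open Real

/-- The hypercube graph: two vertices are adjacent if they differ in exactly one coordinate. -/
def cube (d : ℕ) : SimpleGraph (Fin d → Bool) where
  Adj x y := ∃ i, x i ≠ y i ∧ ∀ j, j ≠ i → x j = y j
  symm := ⟨fun _ _ ⟨i, h, h'⟩ => ⟨i, h.symm, fun j hj => (h' j hj).symm⟩⟩
  loopless := ⟨fun _ ⟨_, h, _⟩ => h rfl⟩

/-- A straight-line drawing: distinct vertices are distinct points, and no edge contains a vertex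
which is not one of its ends. -/
def IsDrawing {V : Type} (G : SimpleGraph V) (p : V → ℂ) : Prop :=
  Function.Injective p ∧ ∀ u v w, G.Adj u v → p w ∈ segment ℝ (p u) (p v) → w = u ∨ w = v

/-- The set of the crossing angles: for two different edges that meet in a point interior to both,
the smaller one of the angles between them. -/
def crossingAngles {V : Type} (G : SimpleGraph V) (p : V → ℂ) : Set ℝ :=
  {a | ∃ u v u' v', G.Adj u v ∧ G.Adj u' v' ∧ s(u, v) ≠ s(u', v') ∧
    (∃ z, z ∈ openSegment ℝ (p u) (p v) ∧ z ∈ openSegment ℝ (p u') (p v')) ∧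
    a = min (InnerProductGeometry.angle (p v - p u) (p v' - p u'))
      (π - InnerProductGeometry.angle (p v - p u) (p v' - p u'))}

/-- The crossing angular resolution: the supremum, over all drawings with crossings, of the least
crossing angle. -/
noncomputable def car {V : Type} (G : SimpleGraph V) : ℝ :=
  sSup {a | ∃ p : V → ℂ, IsDrawing G p ∧ (crossingAngles G p).Nonempty ∧
    a = sInf (crossingAngles G p)}

theorem cube_cliqueFree (d : ℕ) : (cube d).CliqueFree 3 := by
  intro s hs
  rw [SimpleGraph.is3Clique_iff] at hs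
  obtain ⟨x, y, z, ⟨i, hi, hi'⟩, ⟨k, hk, hk'⟩, ⟨j, hj, hj'⟩, -⟩ := hs
  by_cases hij : i = j
  · subst hij
    have h1 : x i = z i := by
      revert hi hj
      cases x i <;> cases y i <;> cases z i <;> simp
    by_cases hki : k = i
    · rw [hki] at hk
      exact hk h1
    · exact hk ((hi' k hki).trans (hj' k hki))
  · have h1 : x i ≠ z i := by
      rw [← hj' i hij]
      exact hi
    have h2 : x j ≠ z j := by
      rw [hi' j (Ne.symm hij)]
      exact hj
    have h3 : i = k := by
      by_contra h
      exact h1 (hk' i h)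
    have h4 : j = k := by
      by_contra h
      exact h2 (hk' j h)
    exact hij (h3.trans h4.symm)

open Classical in
theorem cube_degree (d : ℕ) (x : Fin d → Bool) : (cube d).degree x = d := by
  have h1 : (cube d).neighborFinset x =
      Finset.univ.image (fun i => Function.update x i (!x i)) := by
    ext y
    rw [SimpleGraph.mem_neighborFinset, Finset.mem_image]
    constructor
    · rintro ⟨i, hi, hi'⟩
      refine ⟨i, Finset.mem_univ _, ?_⟩
      funext j
      by_cases hj : j = i
      · subst hj
        rw [Function.update_self]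
        revert hi
        cases x j <;> cases y j <;> simp
      · rw [Function.update_of_ne hj]
        exact hi' j hj
    · rintro ⟨i, -, rfl⟩
      refine ⟨i, ?_, fun j hj => ?_⟩
      · rw [Function.update_self]
        cases x i <;> simp
      · rw [Function.update_of_ne hj]
  rw [← SimpleGraph.card_neighborFinset_eq_degree, h1, Finset.card_image_of_injective]
  · simp
  · intro i j h
    by_contra hij
    have h2 := congrFun h i
    simp only [Function.update_self] at h2
    rw [Function.update_of_ne hij] at h2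
    revert h2
    cases x i <;> simp

theorem cube_edges (d : ℕ) : (2 : ℝ) ^ d * d = 2 * ((cube d).edgeSet.ncard : ℝ) := by
  classical
  have hcard : Fintype.card (Fin d → Bool) = 2 ^ d := by simp
  have h2 := SimpleGraph.sum_degrees_eq_twice_card_edges (cube d)
  rw [Finset.sum_congr rfl (fun x _ => cube_degree d x)] at h2
  simp only [Finset.sum_const, Finset.card_univ, hcard, smul_eq_mul] at h2
  have h3 : (cube d).edgeSet.ncard = (cube d).edgeFinset.card := by
    rw [← SimpleGraph.coe_edgeFinset, Set.ncard_coe_finset]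
  rw [h3]
  exact_mod_cast h2

/-- If all crossing angles are at least `α` then `α` is at most `(4 - 8 / 2 ^ d) π / d`. -/
theorem cube_bound (d : ℕ) (hd : 4 ≤ d) (x : ℝ)
    (h1 : ((cube d).edgeSet.ncard : ℝ) * x ≤ (2 * ((2 : ℝ) ^ d) - 4) * π) :
    x ≤ (4 - 8 / 2 ^ d) * π / d := by
  have h3 := cube_edges d
  have hd0 : (0 : ℝ) < d := by exact_mod_cast (by omega : 0 < d)
  have hp0 : (0 : ℝ) < 2 ^ d := by positivity
  rw [le_div_iff₀ hd0]
  have h5 : (2 : ℝ) ^ d * (x * d) ≤ 2 ^ d * ((4 - 8 / 2 ^ d) * π) := by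
    have e1 : (2 : ℝ) ^ d * (x * d) = 2 * (((cube d).edgeSet.ncard : ℝ) * x) := by
      rw [← mul_assoc 2, ← h3]
      ring
    have e2 : (2 : ℝ) ^ d * ((4 - 8 / 2 ^ d) * π) = 2 * ((2 * 2 ^ d - 4) * π) := by
      field_simp
      ring
    rw [e1, e2]
    linarith
  exact le_of_mul_le_mul_left h5 hp0

theorem general (V : Type) [Fintype V] (G : SimpleGraph V) (htf : G.CliqueFree 3)
    (hn : 3 ≤ Fintype.card V) (p : V → ℂ) (hp : IsDrawing G p) (α : ℝ) (h0 : 0 < α) (hpi : α ≤ π)
    (hα : ∀ a ∈ crossingAngles G p, α ≤ a) :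
    (G.edgeSet.ncard : ℝ) * α ≤ (2 * (Fintype.card V : ℝ) - 4) * π := by
  classical
  have h1 := Pool.Agent.K6.H41.CR.avg G htf hn p hp α h0 hpi hα G.edgeFinset
    (fun e => SimpleGraph.mem_edgeFinset)
  have h2 : G.edgeSet.ncard = G.edgeFinset.card := by
    rw [← SimpleGraph.coe_edgeFinset, Set.ncard_coe_finset]
  rw [h2]
  exact h1

theorem crossingAngles_finite {V : Type} [Fintype V] (G : SimpleGraph V) (p : V → ℂ) :
    (crossingAngles G p).Finite := by
  refine (Set.finite_range (fun q : V × V × V × V =>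
    min (InnerProductGeometry.angle (p q.2.1 - p q.1) (p q.2.2.2 - p q.2.2.1))
      (π - InnerProductGeometry.angle (p q.2.1 - p q.1) (p q.2.2.2 - p q.2.2.1)))).subset ?_
  rintro a ⟨u, v, u', v', -, -, -, -, rfl⟩
  exact ⟨(u, v, u', v'), rfl⟩

theorem cube_drawing (d : ℕ) (hd : 4 ≤ d) (p : (Fin d → Bool) → ℂ) (hp : IsDrawing (cube d) p) :
    ∃ a ∈ crossingAngles (cube d) p, a ≤ (4 - 8 / 2 ^ d) * π / d := by
  have hpi := Real.pi_pos
  have hcard : Fintype.card (Fin d → Bool) = 2 ^ d := by simp
  have h16 : 2 ^ 4 ≤ 2 ^ d := Nat.pow_le_pow_right (by norm_num) hd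
  have hd0 : (0 : ℝ) < d := by exact_mod_cast (by omega : 0 < d)
  have hd4 : (4 : ℝ) ≤ d := by exact_mod_cast hd
  have hp0 : (0 : ℝ) < 8 / 2 ^ d := by positivity
  have key : ∀ α : ℝ, 0 < α → α ≤ π → (∀ a ∈ crossingAngles (cube d) p, α ≤ a) →
      α ≤ (4 - 8 / 2 ^ d) * π / d := by
    intro α h0 h1 h2
    apply cube_bound d hd
    have := general _ (cube d) (cube_cliqueFree d) (by omega) p hp α h0 h1 h2
    rw [hcard] at this
    push_cast at this
    exact this
  have hB : (4 - 8 / 2 ^ d) * π / d < π := by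
    rw [div_lt_iff₀ hd0]
    nlinarith [mul_pos hp0 hpi, mul_le_mul_of_nonneg_left hd4 hpi.le]
  by_contra hcon
  push Not at hcon
  have hB0 : 0 ≤ (4 - 8 / 2 ^ d) * π / d := by
    have h8 : (8 : ℝ) / 2 ^ d ≤ 1 := by
      rw [div_le_one (by positivity)]
      have : (16 : ℝ) ≤ 2 ^ d := by exact_mod_cast h16
      linarith
    exact div_nonneg (mul_nonneg (by linarith) hpi.le) hd0.le
  rcases (crossingAngles (cube d) p).eq_empty_or_nonempty with he | hne
  · have := key π hpi le_rfl (by rw [he]; simp)
    linarith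
  · have hmem := hne.csInf_mem (crossingAngles_finite (cube d) p)
    have h1 := hcon _ hmem
    have h2 : sInf (crossingAngles (cube d) p) ≤ π := by
      obtain ⟨u, v, u', v', -, -, -, -, h⟩ := hmem
      rw [h]
      exact (min_le_left _ _).trans (InnerProductGeometry.angle_le_pi _ _)
    have h3 := key _ (lt_of_le_of_lt hB0 h1) h2
      (fun a ha => csInf_le (crossingAngles_finite (cube d) p).bddBelow ha)
    linarith

/-- **Main theorem.** (1) `m α ≤ (2 n - 4) π` for every straight-line drawing with crossing angles at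
least `α ≤ π` of a graph without triangles with `n ≥ 3` vertices and `m` edges. (2) For all `d ≥ 4`
every straight-line drawing of `Q_d` has a crossing with an angle of at most `(4 - 8 / 2 ^ d) π / d`,
and `car (Q_d) ≤ (4 - 8 / 2 ^ d) π / d`. (3) `car (Q_d) < π / 2` for all `d ≥ 8`. -/
theorem result :
    (∀ (V : Type) [Fintype V] (G : SimpleGraph V), G.CliqueFree 3 → 3 ≤ Fintype.card V →
      ∀ p : V → ℂ, IsDrawing G p → ∀ α : ℝ, 0 < α → α ≤ π → (∀ a ∈ crossingAngles G p, α ≤ a) →
      (G.edgeSet.ncard : ℝ) * α ≤ (2 * (Fintype.card V : ℝ) - 4) * π) ∧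
    (∀ d : ℕ, 4 ≤ d →
      (∀ p : (Fin d → Bool) → ℂ, IsDrawing (cube d) p →
        ∃ a ∈ crossingAngles (cube d) p, a ≤ (4 - 8 / 2 ^ d) * π / d) ∧
      car (cube d) ≤ (4 - 8 / 2 ^ d) * π / d) ∧
    (∀ d : ℕ, 8 ≤ d → car (cube d) < π / 2) := by
  have hcube : ∀ d : ℕ, 4 ≤ d → car (cube d) ≤ (4 - 8 / 2 ^ d) * π / d := by
    intro d hd
    apply Real.sSup_le
    · rintro a ⟨p, hp, -, rfl⟩
      obtain ⟨b, hb, hb'⟩ := cube_drawing d hd p hp
      exact (csInf_le (crossingAngles_finite (cube d) p).bddBelow hb).trans hb'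
    · have hd0 : (0 : ℝ) < d := by exact_mod_cast (by omega : 0 < d)
      have h16 : 2 ^ 4 ≤ 2 ^ d := Nat.pow_le_pow_right (by norm_num) hd
      have h8 : (8 : ℝ) / 2 ^ d ≤ 1 := by
        rw [div_le_one (by positivity)]
        have : (16 : ℝ) ≤ 2 ^ d := by exact_mod_cast h16
        linarith
      exact div_nonneg (mul_nonneg (by linarith) Real.pi_pos.le) hd0.le
  refine ⟨general, fun d hd => ⟨cube_drawing d hd, hcube d hd⟩, ?_⟩
  intro d hd
  refine lt_of_le_of_lt (hcube d (by omega)) ?_
  have hd0 : (0 : ℝ) < d := by exact_mod_cast (by omega : 0 < d)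
  have hd8 : (8 : ℝ) ≤ d := by exact_mod_cast hd
  have hp0 : (0 : ℝ) < 8 / 2 ^ d := by positivity
  rw [div_lt_div_iff₀ hd0 (by norm_num)]
  have hpi := Real.pi_pos
  nlinarith [mul_pos hp0 hpi, mul_le_mul_of_nonneg_left hd8 hpi.le]

end Pool.Agent.Results.MP_e830f9_co.HypercubeUpperBound
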